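import Pool.Agent.X311.Rb4

/-!
# Chern classes of bundles of rank two on projective spaces

Let `E` be a vector bundle of rank two on `ℙ ^ n` with the Chern classes `c₁`, `c₂` (integers), and
`Δ = c₁ ^ 2 - 4 c₂`. Its class in the Grothendieck group is an integral combination of the classes of
line bundles (`IsChernData`; the Lean theorem is about pairs of integers with this property). If
`c₁ = a + b`, `c₂ = a b` for integers `a`, `b`, the Chern classes are those of `O(a) ⊕ O(b)`. We show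
that otherwise `Δ` is large: `|Δ| > 3 (n - 1) ^ 2 / 16`, and `π 4 ^ (n - 1) ≤ √|Δ| sinh (π √|Δ|)`; for a
stable `E` we have `Δ < 0` by Bogomolov, so `4 c₂ - c₁ ^ 2 > 3 (n - 1) ^ 2 / 16`. If in addition `E` is
generated by global sections and `Δ < 0`, then `c₁ ≥ n ^ 2 / 8` and `c₂ > n ^ 4 / 256`. For all primes
`p < n` the polynomial `z ^ 2 - c₁ z + c₂` has a root modulo `p`, and primes `p` with `2 p < n` that
divide `Δ` divide it at least twice.
-/

set_option autoImplicit false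

namespace Pool.Agent.Results.MP_b01859_ag.ChernClassesTwo

open Pool.Agent.X311.Rb Finset

/-- **Chern classes of bundles of rank two on `ℙ ^ n`.** Let `c₁`, `c₂` be integers such that a class
`∑ [O(a i)] - ∑ [O(b j)]` in the Grothendieck group of `ℙ ^ n` has the Chern character of a bundle of rank
two with the Chern classes `c₁`, `c₂`, and let `Δ = c₁ ^ 2 - 4 c₂`.

* If `Δ` is a square, then `c₁ = a + b` and `c₂ = a b` for integers `a`, `b`. Otherwise
  `3 (n - 1) ^ 2 < 16 |Δ|` and `π 4 ^ (n - 1) ≤ √|Δ| sinh (π √|Δ|)`.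
* If `Δ < 0`, `n ≥ 5` and the Segre numbers `segre c₁ c₂ k` for `k ≤ n` are not negative (this is so for a
  bundle that is generated by global sections), then `√(4 c₂ - c₁ ^ 2) ≤ c₁ tan (π / (n + 1))`,
  `n ^ 2 ≤ 8 c₁` and `n ^ 4 < 256 c₂`.
* For each prime `p < n` the polynomial `z ^ 2 - c₁ z + c₂` has a root modulo `p`.
* If a prime `p` divides `Δ` and `p ^ 2` does not, then `n ≤ 2 p`.
* For all `m < n` and all `k` the integer `-Δ ∏_{i < m} ((k + i) ^ 2 - c₁ (k + i) + c₂)` is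
  `(m!) ^ 2 (t ^ 2 - c₁ t s + c₂ s ^ 2)` for integers `s`, `t`. -/
theorem result {n : ℕ} (hn : 1 ≤ n) {c₁ c₂ : ℤ} (h : IsChernData n c₁ c₂) :
    ((∃ a b : ℤ, c₁ = a + b ∧ c₂ = a * b) ∨
      (¬ IsSquare (disc c₁ c₂) ∧ 3 * ((n : ℤ) - 1) ^ 2 < 16 * |disc c₁ c₂| ∧
        Real.pi * 4 ^ (n - 1) ≤
          √|(disc c₁ c₂ : ℝ)| * Real.sinh (Real.pi * √|(disc c₁ c₂ : ℝ)|))) ∧
    (5 ≤ n → c₁ ^ 2 < 4 * c₂ → (∀ k ≤ n, 0 ≤ segre c₁ c₂ k) →
      √(4 * (c₂ : ℝ) - (c₁ : ℝ) ^ 2) ≤ c₁ * Real.tan (Real.pi / (n + 1)) ∧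
        (n : ℤ) ^ 2 ≤ 8 * c₁ ∧ (n : ℤ) ^ 4 < 256 * c₂) ∧
    (∀ p : ℕ, p.Prime → p < n → ∃ z : ZMod p, z ^ 2 - (c₁ : ZMod p) * z + (c₂ : ZMod p) = 0) ∧
    (∀ p : ℕ, p.Prime → (p : ℤ) ∣ disc c₁ c₂ → ¬ (p : ℤ) ^ 2 ∣ disc c₁ c₂ → n ≤ 2 * p) ∧
    (∀ m : ℕ, m < n → ∀ k : ℤ, ∃ s t : ℤ,
      (m.factorial : ℤ) ^ 2 * (t ^ 2 - c₁ * t * s + c₂ * s ^ 2) =
        -disc c₁ c₂ * ∏ i ∈ range m, ((k + i) ^ 2 - c₁ * (k + i) + c₂)) := by
  have hb : ¬ IsSquare (disc c₁ c₂) → 3 * ((n : ℤ) - 1) ^ 2 < 16 * |disc c₁ c₂| := by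
    intro hs
    have h1 := bound h hs (m := n - 1) (by omega)
    push_cast [hn] at h1
    exact h1
  refine ⟨?_, ?_, fun p hp hpn => exists_root h hp hpn, fun p hp h1 h2 => le_two_mul h hp h1 h2,
    fun m hm k => key h hm k⟩
  · by_cases hs : IsSquare (disc c₁ c₂)
    · exact Or.inl (split_of_isSquare hs)
    · exact Or.inr ⟨hs, hb hs, third_le h hs (by omega)⟩
  · intro hn5 hneg hpos
    have hlt : disc c₁ c₂ < 0 := by
      unfold disc
      linarith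
    have hs : ¬ IsSquare (disc c₁ c₂) := by
      rintro ⟨w, hw⟩
      nlinarith [mul_self_nonneg w]
    have h1 := hb hs
    rw [abs_of_neg hlt] at h1
    unfold disc at h1
    have h2 := sqrt_le hneg (M := n + 1) (by omega) fun k hk => hpos k (by omega)
    have h3 := lt_eight_mul (N := (n : ℤ) - 1) (by omega) hneg (M := n + 1) (by omega)
      (fun k hk => hpos k (by omega)) (by linarith)
    push_cast at h2 h3
    have h4 : (n : ℤ) ^ 2 ≤ 8 * c₁ := by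
      have : ((n : ℤ) - 1) * (n + 1) = (n : ℤ) ^ 2 - 1 := by ring
      rw [this] at h3
      omega
    refine ⟨h2.2, h4, ?_⟩
    have h5 : ((n : ℤ) ^ 2) ^ 2 ≤ (8 * c₁) ^ 2 := pow_le_pow_left₀ (by positivity) h4 2
    nlinarith

end Pool.Agent.Results.MP_b01859_ag.ChernClassesTwo
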