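import Pool.Agent.X311.Rd7
import Pool.Agent.X311.Rd8
import Pool.Agent.X311.Rc5

/-!
# Bundles of rank two and the least prime that does not split

Let `E` be a vector bundle of rank two on `ℙ ^ n` with the Chern classes `c₁`, `c₂` and let
`Δ = c₁ ^ 2 - 4 c₂`. If the Chern classes are not those of a sum of two line bundles, then `Δ` is not a square, and
each prime `p` that does not split in `ℚ(√Δ)` gives an upper bound for `n`: `n ≤ 2 (v + 1) p ^ (v + 1)`,
where `p ^ v` is the power of `p` in the conductor `f` (`Δ = f ^ 2 D`). With the method of Burgess (for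
characters of quadratic fields of arbitrary discriminant) and the trick of Vinogradov this shows
`|Δ| ≥ c n ^ (4 √e - ε)`, `4 √e = 6.594...`. If moreover `Δ < 0` (for instance if `E` is stable) and `E` is
generated by global sections, then `c₁ ≥ c n ^ (1 + 2 √e - ε)` and `c₂ ≥ c n ^ (2 + 4 √e - ε)`. If the field
`ℚ(√Δ)` is fixed, `f` and so `|Δ|` grow exponentially with `n`.
-/

set_option autoImplicit false

namespace Pool.Agent.Results.MP_b01859_ag.LeastNonresidue

theorem not_isSquare {D : ℤ} (hD : Squarefree D) (hD1 : D ≠ 1) : ¬ IsSquare D := by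
  rintro ⟨u, hu⟩
  have h4 := hD u ⟨1, by rw [hu, mul_one]⟩
  rcases Int.isUnit_iff.1 h4 with h5 | h5 <;> (rw [hu, h5] at hD1; norm_num at hD1)

open Pool.Agent.X311.Rb Pool.Agent.X311.Rc Pool.Agent.X311.Rd

/-- **Bundles of rank two and the least prime that does not split.** A pair of integers `(c₁, c₂)` is Chern data on
`ℙ ^ n` if there is a class `∑ [O(a i)] - ∑ [O(b j)]` in the Grothendieck group of `ℙ ^ n` with the Chern
character of a bundle of rank two with the Chern classes `c₁`, `c₂`.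

* For each `ε > 0` there is a constant `c > 0` such that for all `n` and all Chern data `(c₁, c₂)` on `ℙ ^ n`
  which are not the Chern classes of `O(a) ⊕ O(b)` for integers `a`, `b`:
  `|c₁ ^ 2 - 4 c₂| ≥ c n ^ (4 √e - ε)`, and if `n ≥ 5`, `c₁ ^ 2 < 4 c₂` and the Segre numbers `segre c₁ c₂ k`
  for `k ≤ n` are not negative (this is so for a bundle that is generated by global sections), then
  `c₁ ≥ c n ^ (1 + 2 √e - ε)` and `c₂ ≥ c n ^ (2 + 4 √e - ε)`.
* Let `(c₁, c₂)` be Chern data on `ℙ ^ n` and `c₁ ^ 2 - 4 c₂ = f ^ 2 D` with `f > 0` and `D ≠ 1` free of squares.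
  If an odd prime `p` does not split in `ℚ(√D)` (that is, the Jacobi symbol `(D / p)` is not one), then
  `n ≤ 2 (v + 1) p ^ (v + 1)` for the exponent `v` of `p` in `f`.
* For each `D ≠ 1` free of squares there is a constant `c > 0` such that for all `n`, all Chern data `(c₁, c₂)` on
  `ℙ ^ n` and all `f > 0` with `c₁ ^ 2 - 4 c₂ = f ^ 2 D`: `f ≥ c exp (c n)`. -/
theorem result :
    (∀ ε : ℝ, 0 < ε → ∃ c : ℝ, 0 < c ∧ ∀ (n : ℕ) (c₁ c₂ : ℤ), IsChernData n c₁ c₂ →
      (¬ ∃ a b : ℤ, c₁ = a + b ∧ c₂ = a * b) →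
        c * (n : ℝ) ^ (4 * Real.exp (1 / 2) - ε) ≤ |(c₁ : ℝ) ^ 2 - 4 * c₂| ∧
        (5 ≤ n → c₁ ^ 2 < 4 * c₂ → (∀ k ≤ n, 0 ≤ segre c₁ c₂ k) →
          c * (n : ℝ) ^ (1 + 2 * Real.exp (1 / 2) - ε) ≤ c₁ ∧
          c * (n : ℝ) ^ (2 + 4 * Real.exp (1 / 2) - ε) ≤ c₂)) ∧
    (∀ (n : ℕ) (c₁ c₂ : ℤ), IsChernData n c₁ c₂ → ∀ (f : ℕ) (D : ℤ), 0 < f → Squarefree D → D ≠ 1 →
      c₁ ^ 2 - 4 * c₂ = (f : ℤ) ^ 2 * D → ∀ p : ℕ, p.Prime → p ≠ 2 → jacobiSym D p ≠ 1 →
        n ≤ 2 * (f.factorization p + 1) * p ^ (f.factorization p + 1)) ∧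
    (∀ D : ℤ, Squarefree D → D ≠ 1 → ∃ c : ℝ, 0 < c ∧ ∀ (n : ℕ) (c₁ c₂ : ℤ) (f : ℕ),
      IsChernData n c₁ c₂ → 0 < f → c₁ ^ 2 - 4 * c₂ = (f : ℤ) ^ 2 * D →
        c * Real.exp (c * n) ≤ f) := by
  refine ⟨?_, ?_, fun D hD hD1 => fixed_field hD (not_isSquare hD hD1)⟩
  · intro ε hε
    have he := Real.exp_pos (1 / 2)
    obtain ⟨c, hc, H⟩ := disc_lower (4 * Real.exp (1 / 2)) (by positivity)
      (fun ε hε hε1 => large' ε hε hε1) ε hε
    obtain ⟨c', hc', H'⟩ := chern_lower (4 * Real.exp (1 / 2)) ε c hc H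
    refine ⟨min c c', lt_min hc hc', fun n c₁ c₂ h0 hns => ?_⟩
    have hs : ¬ IsSquare (disc c₁ c₂) := fun h => hns (split_of_isSquare h)
    constructor
    · have h1 := H n c₁ c₂ h0 hs
      have e : |(disc c₁ c₂ : ℝ)| = |(c₁ : ℝ) ^ 2 - 4 * c₂| := by
        unfold disc
        push_cast
        rfl
      rw [← e]
      refine le_trans ?_ h1
      gcongr
      exact min_le_left _ _
    · intro hn hneg hpos
      obtain ⟨h1, h2⟩ := H' n c₁ c₂ h0 hn hneg hpos
      have hn1 : (1 : ℝ) ≤ n := by exact_mod_cast (by omega : 1 ≤ n)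
      constructor
      · refine le_trans ?_ h1
        refine mul_le_mul (min_le_right _ _) (Real.rpow_le_rpow_of_exponent_le hn1 ?_)
          (by positivity) hc'.le
        linarith
      · refine le_trans ?_ h2
        refine mul_le_mul (min_le_right _ _) (Real.rpow_le_rpow_of_exponent_le hn1 ?_)
          (by positivity) hc'.le
        linarith
  · intro n c₁ c₂ h0 f D hf hD hD1 hΔ p hp hp2 hj
    have hs : ¬ IsSquare (disc c₁ c₂) := by
      rintro ⟨w, hw⟩
      have hw' : (f : ℤ) ^ 2 * D = w * w := by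
        rw [← hΔ, ← hw]
        rfl
      have hf0 : (f : ℤ) ≠ 0 := by exact_mod_cast hf.ne'
      have h1 : (f : ℤ) ∣ w := by
        have : (f : ℤ) ^ 2 ∣ w ^ 2 := ⟨D, by rw [hw']; ring⟩
        exact (Int.pow_dvd_pow_iff (by norm_num)).1 this
      obtain ⟨u, rfl⟩ := h1
      have h2 : D = u * u := by
        have h3 : (f : ℤ) ^ 2 * D = (f : ℤ) ^ 2 * (u * u) := by
          rw [hw']
          ring
        exact mul_left_cancel₀ (pow_ne_zero 2 hf0) h3
      have h4 := hD u ⟨1, by rw [h2, mul_one]⟩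
      rcases Int.isUnit_iff.1 h4 with h5 | h5 <;> (rw [h2, h5] at hD1; norm_num at hD1)
    exact le_of_jacobi h0 hs hf.ne' hD hΔ hp hp2 hj

end Pool.Agent.Results.MP_b01859_ag.LeastNonresidue
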