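import Mathlib
import Pool.Agent.X303.HC.Wt2

/-!
# Bundles with homologies in the coordinates come from weighted projective spaces

Let `E` be a rank two bundle on `ℙⁿ`, `n ≥ 3`, which does not split.  Let `m_0, …, m_n` be positive
integers and `ζ_i` a primitive `m_i`-th root of unity; let `h_i` be the homology which multiplies
the coordinate `i` by `ζ_i` (the identity if `m_i = 1`).

(1) Suppose that every `h_i` has a lift `Φ_i` to `E`, that is an isomorphism `h_i^* E ≅ E`, and
that `E` is simple or that the `Φ_i` commute up to constants.  Then `E` is isomorphic to a twist of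
the kernel of a homogeneous matrix of constant rank with entries in `ℂ[x_0 ^ m_0, …, x_n ^ m_n]`.
In other words, `E` is a twist of the pull-back of a bundle on the weighted projective space (stack)
`ℙ(m_0, …, m_n)` under the map `(x_i) ↦ (x_i ^ m_i)`.

(2) The same holds if some twist of `E` has a section whose zero scheme is a nonsingular irreducible
variety of codimension two which is stable under the `h_i`.

(3) If all the `m_i` are equal to `M` and all the `ζ_i` are equal, then `E` is isomorphic to a twist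
of the pull-back `f^* F` of a rank two bundle `F` on `ℙⁿ` which does not split, where
`f = (x_0 ^ M, …, x_n ^ M)`.

For example (one `m_i > 1`), every bundle which does not split and is invariant under a homology of
order `m` is the pull-back of a bundle on `ℙ(1, …, 1, m)`.
-/

set_option autoImplicit false

namespace Pool.Agent.Results.MP_b01859_ag.WeightedDescent

open MvPolynomial H960VB Pool.Agent.X303.HC Pool.Agent.X303.HC.Var Pool.Agent.Results.MP_745d3a_ag

/-- the multiplication of the coordinate `i` by `ζ` -/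
def homology {n : ℕ} (ζ : ℂ) (i : Fin (n + 1)) : Matrix (Fin (n + 1)) (Fin (n + 1)) ℂ :=
  Matrix.diagonal fun s => if s = i then ζ else 1

theorem homology_eq {n : ℕ} (ζ : ℂ) (i : Fin (n + 1)) :
    homology ζ i = AbelianSymmetry.scale ζ {i} := by
  unfold homology AbelianSymmetry.scale
  congr 1
  funext s
  simp only [Finset.mem_singleton]

/-- two lifts of the same matrix to a simple bundle are proportional -/
theorem simple_lifts {n : ℕ} {E : Bundle2 n} (hE : AbelianSymmetry.IsSimple E)
    {g g' : Matrix (Fin (n + 1)) (Fin (n + 1)) ℂ} (hgg : g' * g = 1)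
    {A B : AbelianSymmetry.Vec E → AbelianSymmetry.Vec E} (hA : AbelianSymmetry.IsLift E g A)
    (hB : AbelianSymmetry.IsLift E g B) : ∃ c : ℂ, ∀ d s, E.IsSection d s → A s = c • B s := by
  classical
  let Ψ : ℤ → AbelianSymmetry.Vec E → AbelianSymmetry.Vec E := fun d s =>
    if H : ∃ t, E.IsSection d t ∧ B t = s then A H.choose else 0
  have key : ∀ d t, E.IsSection d t → Ψ d (B t) = A t := by
    intro d t ht
    have H : ∃ t', E.IsSection d t' ∧ B t' = B t := ⟨t, ht, rfl⟩
    show (if H : ∃ t', E.IsSection d t' ∧ B t' = B t then A H.choose else 0) = _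
    rw [dif_pos H, AbelianSymmetry.lift_inj hB H.choose_spec.1 ht H.choose_spec.2]
  obtain ⟨c, hc⟩ := hE Ψ (by
    intro d s hs
    obtain ⟨t, ht, rfl⟩ := AbelianSymmetry.lift_surj hB hs
    rw [key d t ht]
    exact hA.sec d _ ht) (by
    intro d s s' hs hs'
    obtain ⟨t, ht, rfl⟩ := AbelianSymmetry.lift_surj hB hs
    obtain ⟨t', ht', rfl⟩ := AbelianSymmetry.lift_surj hB hs'
    rw [← hB.add d t t' ht ht', key d t ht, key d t' ht',
      key d _ (AbelianSymmetry.isSection_add ht ht'), hA.add d t t' ht ht']) (by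
    intro d e p s hs hp
    obtain ⟨t, ht, rfl⟩ := AbelianSymmetry.lift_surj hB hs
    have h0 : AbelianSymmetry.subst g (AbelianSymmetry.subst g' p) = p := by
      rw [AbelianSymmetry.subst_subst, hgg, AbelianSymmetry.subst_one]
    have h1 := hB.semi d e (AbelianSymmetry.subst g' p) t ht (AbelianSymmetry.homZ_subst _ hp)
    rw [h0] at h1
    rw [← h1, key (d + e) _ (AbelianSymmetry.isSection_mul (AbelianSymmetry.homZ_subst _ hp) ht),
      key d t ht, hA.semi d e _ t ht (AbelianSymmetry.homZ_subst _ hp), h0])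
  refine ⟨c, fun d t ht => ?_⟩
  rw [← key d t ht]
  exact hc d _ (hB.sec d t ht)

/-- the composition of two lifts -/
theorem lift_comp {n : ℕ} {E : Bundle2 n} {g h : Matrix (Fin (n + 1)) (Fin (n + 1)) ℂ}
    {A B : AbelianSymmetry.Vec E → AbelianSymmetry.Vec E} (hA : AbelianSymmetry.IsLift E g A)
    (hB : AbelianSymmetry.IsLift E h B) :
    AbelianSymmetry.IsLift E (h * g) (fun s => A (B s)) :=
  { sec := fun d G hG => hA.sec d _ (hB.sec d G hG)
    add := fun d G G' hG hG' => by
      show A (B (G + G')) = A (B G) + A (B G')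
      rw [hB.add d G G' hG hG', hA.add d _ _ (hB.sec d G hG) (hB.sec d G' hG')]
    semi := fun d e p G hG hp => by
      show A (B (p • G)) = AbelianSymmetry.subst (h * g) p • A (B G)
      rw [hB.semi d e p G hG hp, hA.semi d e _ _ (hB.sec d G hG) (AbelianSymmetry.homZ_subst _ hp),
        AbelianSymmetry.subst_subst]
    inj := fun d G hG h0 => hB.inj d G hG (hA.inj d _ (hB.sec d G hG) h0) }

theorem homology_comm {n : ℕ} (z w : ℂ) (i j : Fin (n + 1)) :
    homology z i * homology w j = homology w j * homology z i := by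
  unfold homology
  rw [Matrix.diagonal_mul_diagonal, Matrix.diagonal_mul_diagonal]
  congr 1
  funext s
  exact mul_comm _ _

theorem homology_inv {n : ℕ} {z : ℂ} (hz : z ≠ 0) (i : Fin (n + 1)) :
    homology z⁻¹ i * homology z i = 1 := by
  unfold homology
  rw [Matrix.diagonal_mul_diagonal, ← Matrix.diagonal_one]
  congr 1
  funext s
  split_ifs
  · exact inv_mul_cancel₀ hz
  · exact mul_one _

/-- **Bundles with homologies in the coordinates come from weighted projective spaces.** -/
theorem result {n : ℕ} (hn : 3 ≤ n) (E : Bundle2 n) (hE : ¬ E.Splits)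
    (m : Fin (n + 1) → ℕ) (hm : ∀ i, 0 < m i) (ζ : Fin (n + 1) → ℂ)
    (hζ : ∀ i, IsPrimitiveRoot (ζ i) (m i))
    (h :
      -- the homologies lift to `E`
      (∃ Φ : Fin (n + 1) → AbelianSymmetry.Vec E → AbelianSymmetry.Vec E,
        (∀ i, AbelianSymmetry.IsLift E (homology (ζ i) i) (Φ i)) ∧
        (AbelianSymmetry.IsSimple E ∨ ∀ i j, ∃ c : ℂ, ∀ d s, E.IsSection d s →
          Φ i (Φ j s) = c • Φ j (Φ i s))) ∨
      -- or the zero scheme of some section is nonsingular and stable under the homologies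
      (∃ (d : ℤ) (s : Fin E.a → MvPolynomial (Fin (n + 1)) ℂ)
        (I : Ideal (MvPolynomial (Fin (n + 1)) ℂ)), IsSmoothVariety n 2 I ∧
        IsZeroSchemeOf E d s I ∧ ∀ i, Preserves (homology (ζ i) i) I)) :
    (∃ (E' : Bundle2 n) (k : ℤ) (Θ : (Fin E.a → MvPolynomial (Fin (n + 1)) ℂ) →
      (Fin E'.a → MvPolynomial (Fin (n + 1)) ℂ)),
      Desc.IsIso E E' k Θ ∧ ∀ a b, ∃ q, E'.B a b = Wt.sub m q) ∧
    ∀ (M : ℕ) (hM : 0 < M) (z : ℂ), (∀ i, m i = M ∧ ζ i = z) →
      ∃ (F : Bundle2 n) (k : ℤ) (Θ : (Fin E.a → MvPolynomial (Fin (n + 1)) ℂ) →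
        (Fin (Desc.powPull M hM F).a → MvPolynomial (Fin (n + 1)) ℂ)),
        ¬ F.Splits ∧ Desc.IsIso E (Desc.powPull M hM F) k Θ := by
  have hζ0 : ∀ i, ζ i ≠ 0 := fun i => (hζ i).ne_zero (hm i).ne'
  have main : ∀ Φ : Fin (n + 1) → AbelianSymmetry.Vec E → AbelianSymmetry.Vec E,
      (∀ i, AbelianSymmetry.IsLift E (homology (ζ i) i) (Φ i)) →
      (∀ i j, ∃ c : ℂ, ∀ d s, E.IsSection d s → Φ i (Φ j s) = c • Φ j (Φ i s)) →
      (∃ (E' : Bundle2 n) (k : ℤ) (Θ : (Fin E.a → MvPolynomial (Fin (n + 1)) ℂ) →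
        (Fin E'.a → MvPolynomial (Fin (n + 1)) ℂ)),
        Desc.IsIso E E' k Θ ∧ ∀ a b, ∃ q, E'.B a b = Wt.sub m q) ∧
      ∀ (M : ℕ) (hM : 0 < M) (z : ℂ), (∀ i, m i = M ∧ ζ i = z) →
        ∃ (F : Bundle2 n) (k : ℤ) (Θ : (Fin E.a → MvPolynomial (Fin (n + 1)) ℂ) →
          (Fin (Desc.powPull M hM F).a → MvPolynomial (Fin (n + 1)) ℂ)),
          ¬ F.Splits ∧ Desc.IsIso E (Desc.powPull M hM F) k Θ := by
    intro Φ hΦ hc
    have hl : ∀ i, AbelianSymmetry.IsLift E (AbelianSymmetry.scale (ζ i) {i}) (Φ i) := by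
      intro i
      rw [← homology_eq]
      exact hΦ i
    refine ⟨Wt.presentation hn hE hm hζ (fun i => AbelianSymmetry.gop (hl i)) fun i j => ?_,
      fun M hM z hMz => ?_⟩
    · obtain ⟨c, hc⟩ := hc i j
      refine ⟨c, fun d => ?_⟩
      apply LinearMap.ext
      intro s
      apply Subtype.ext
      exact hc d s.1 (Pool.Agent.W615.sec_iff.1 s.2)
    · have hl' : ∀ i, AbelianSymmetry.IsLift E (AbelianSymmetry.scale z {i}) (Φ i) := by
        intro i
        rw [← (hMz i).2]
        exact hl i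
      have hζ' : IsPrimitiveRoot z M := by
        rw [← (hMz 0).1, ← (hMz 0).2]
        exact hζ 0
      refine Desc.descent hn hE hM hζ' (fun i => AbelianSymmetry.gop (hl' i)) fun i j => ?_
      obtain ⟨c, hc⟩ := hc i j
      refine ⟨c, fun d => ?_⟩
      apply LinearMap.ext
      intro s
      apply Subtype.ext
      exact hc d s.1 (Pool.Agent.W615.sec_iff.1 s.2)
  rcases h with ⟨Φ, hΦ, h⟩ | ⟨d, s, I, hI, hs, h⟩
  · refine main Φ hΦ ?_
    rcases h with h | h
    · intro i j
      have h1 := lift_comp (hΦ i) (hΦ j)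
      have h2 := lift_comp (hΦ j) (hΦ i)
      rw [homology_comm] at h1
      refine simple_lifts h (g' := homology (ζ j)⁻¹ j * homology (ζ i)⁻¹ i) ?_ h1 h2
      calc homology (ζ j)⁻¹ j * homology (ζ i)⁻¹ i * (homology (ζ i) i * homology (ζ j) j) =
          homology (ζ j)⁻¹ j * (homology (ζ i)⁻¹ i * homology (ζ i) i) * homology (ζ j) j := by
            simp only [mul_assoc]
        _ = 1 := by rw [homology_inv (hζ0 i), mul_one, homology_inv (hζ0 j)]
    · exact h
  · have Z := zs hI (zeroScheme_twist hs)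
    obtain ⟨Φ, hΦ⟩ := exists_symmetry hn Z hI.homogeneous (diagRep Z hI.homogeneous)
      (fun g => g.2)
    choose g hg using fun i => exists_diag Z hI.homogeneous (h i)
    have hmul : ∀ a b, ∃ c : ℂ, c ≠ 0 ∧
        ∀ d s, E.IsSection d s → Φ (a * b) s = c • Φ a (Φ b s) := by
      rcases hΦ.mul with h | h
      · exact AbelianSymmetry.simple_action h _ Φ hΦ.lift
      · exact h
    refine main (fun i => Φ (g i)) (fun i => ?_) fun i j => ?_
    · have h1 := hΦ.lift (g i)
      rw [hg i] at h1
      exact h1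
    · obtain ⟨c, hc0, hc⟩ := hmul (g i) (g j)
      obtain ⟨c', hc0', hc'⟩ := hmul (g j) (g i)
      refine ⟨c⁻¹ * c', fun d s hs => ?_⟩
      have h1 := hc d s hs
      rw [mul_comm (g i) (g j), hc' d s hs] at h1
      rw [mul_smul, h1, smul_smul, inv_mul_cancel₀ hc0, one_smul]

end Pool.Agent.Results.MP_b01859_ag.WeightedDescent
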